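import Mathlib
import Pool.Agent.Lib.MP_09e892_an.SubMean

/-!
Every function of the Fock space `F^p_α` on `ℂ^n`, `0 < p ≤ ∞`, satisfies the Lipschitz-type
condition (L) for the induced distance `d_α`.
-/

namespace Pool.Agent.Results.MP_09e892_an.FockLipschitz

open MeasureTheory Metric Set Filter
open scoped ENNReal
open Pool.Agent.Lib.MP_09e892_an

/-- `dot z u = z₁ ū₁ + ⋯ + zₙ ūₙ`. -/
noncomputable def dot {n : ℕ} (z u : Fin n → ℂ) : ℂ := ∑ j, z j * (starRingEnd ℂ) (u j)

/-- `normSq z = |z|² = |z₁|² + ⋯ + |zₙ|²`. -/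
noncomputable def normSq {n : ℕ} (z : Fin n → ℂ) : ℝ := ∑ j, ‖z j‖ ^ 2

/-- The Gaussian measure `dλ_β(u) = (β/π)ⁿ exp(-β|u|²) dv(u)` on `ℂⁿ`. -/
noncomputable def gauss (n : ℕ) (β : ℝ) : Measure (Fin n → ℂ) :=
  volume.withDensity fun u => ENNReal.ofReal ((β / Real.pi) ^ n * Real.exp (-β * normSq u))

/-- The induced distance `d_α(z,w) = ∫ |exp(α z ū) - exp(α w ū)| dλ_{α/2}(u)`. -/
noncomputable def fockDist {n : ℕ} (α : ℝ) (z w : Fin n → ℂ) : ℝ :=
  ∫ u, ‖Complex.exp (α * dot z u) - Complex.exp (α * dot w u)‖ ∂(gauss n (α / 2))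

section Aux

variable {n : ℕ}

theorem normSq_nonneg (z : Fin n → ℂ) : 0 ≤ normSq z :=
  Finset.sum_nonneg fun _ _ => sq_nonneg _

theorem continuous_normSq : Continuous (normSq : (Fin n → ℂ) → ℝ) := by
  unfold normSq; fun_prop

theorem conj_dot (z u : Fin n → ℂ) : (starRingEnd ℂ) (dot z u) = dot u z := by
  simp [dot, mul_comm]

theorem re_dot_comm (z u : Fin n → ℂ) : (dot z u).re = (dot u z).re := by
  rw [← conj_dot z u, Complex.conj_re]

theorem dot_self (z : Fin n → ℂ) : dot z z = (normSq z : ℂ) := by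
  simp [dot, normSq, Complex.mul_conj, Complex.normSq_eq_norm_sq]

theorem dot_add_left (z w u : Fin n → ℂ) : dot (z + w) u = dot z u + dot w u := by
  simp [dot, add_mul, Finset.sum_add_distrib]

theorem dot_add_right (z w u : Fin n → ℂ) : dot z (w + u) = dot z w + dot z u := by
  simp [dot, mul_add, Finset.sum_add_distrib]

theorem dot_smul_left (c : ℂ) (z u : Fin n → ℂ) : dot (c • z) u = c * dot z u := by
  simp [dot, Finset.mul_sum, mul_assoc]

theorem dot_zero_left (u : Fin n → ℂ) : dot 0 u = 0 := by simp [dot]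

theorem normSq_add (z h : Fin n → ℂ) :
    normSq (z + h) = normSq z + 2 * (dot h z).re + normSq h := by
  have e : ((normSq (z + h) : ℝ) : ℂ) = normSq z + dot h z + dot z h + normSq h := by
    rw [← dot_self, ← dot_self, ← dot_self, dot_add_left, dot_add_right, dot_add_right]; ring
  have := congrArg Complex.re e
  simp only [Complex.ofReal_re, Complex.add_re] at this
  rw [this, re_dot_comm z h]; ring

theorem normSq_le (h : Fin n → ℂ) {r : ℝ} (hr : ‖h‖ ≤ r) : normSq h ≤ n * r ^ 2 := by
  have : ∀ j, ‖h j‖ ^ 2 ≤ r ^ 2 := fun j =>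
    pow_le_pow_left₀ (norm_nonneg _) ((norm_le_pi_norm h j).trans hr) 2
  calc normSq h ≤ ∑ _j : Fin n, r ^ 2 := Finset.sum_le_sum fun j _ => this j
    _ = n * r ^ 2 := by simp

theorem norm_sq_le_normSq (h : Fin n → ℂ) : ‖h‖ ^ 2 ≤ normSq h := by
  have h1 : ‖h‖ ≤ Real.sqrt (normSq h) := by
    refine (pi_norm_le_iff_of_nonneg (Real.sqrt_nonneg _)).mpr fun j => ?_
    apply Real.le_sqrt_of_sq_le
    exact Finset.single_le_sum (f := fun j => ‖h j‖ ^ 2) (fun _ _ => sq_nonneg _)
      (Finset.mem_univ j)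
  calc ‖h‖ ^ 2 ≤ Real.sqrt (normSq h) ^ 2 := pow_le_pow_left₀ (norm_nonneg _) h1 2
    _ = normSq h := Real.sq_sqrt (normSq_nonneg h)

theorem differentiable_dot_left (u : Fin n → ℂ) : Differentiable ℂ (fun z => dot z u) := by
  unfold dot; fun_prop

theorem continuous_dot_right (z : Fin n → ℂ) : Continuous (fun u => dot z u) := by
  unfold dot; fun_prop

/-- The weighted modulus. -/
noncomputable def wt (α : ℝ) (f : (Fin n → ℂ) → ℂ) (z : Fin n → ℂ) : ℝ :=
  ‖f z‖ * Real.exp (-α * normSq z / 2)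

theorem wt_nonneg (α : ℝ) (f : (Fin n → ℂ) → ℂ) (z : Fin n → ℂ) : 0 ≤ wt α f z :=
  mul_nonneg (norm_nonneg _) (Real.exp_pos _).le

theorem continuous_wt (α : ℝ) {f : (Fin n → ℂ) → ℂ} (hf : Continuous f) :
    Continuous (wt α f) := by
  have := continuous_normSq (n := n)
  unfold wt; fun_prop

/-- The Weyl translate. -/
noncomputable def weyl (α : ℝ) (f : (Fin n → ℂ) → ℂ) (z h : Fin n → ℂ) : ℂ :=
  f (z + h) * Complex.exp (-(α * dot h z) - (α * normSq z / 2 : ℝ))

theorem differentiable_weyl (α : ℝ) {f : (Fin n → ℂ) → ℂ} (hf : Differentiable ℂ f)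
    (z : Fin n → ℂ) : Differentiable ℂ (weyl α f z) := by
  have := differentiable_dot_left z
  unfold weyl; fun_prop

theorem norm_weyl (α : ℝ) (f : (Fin n → ℂ) → ℂ) (z h : Fin n → ℂ) :
    ‖weyl α f z h‖ = wt α f (z + h) * Real.exp (α * normSq h / 2) := by
  unfold weyl wt
  rw [norm_mul, Complex.norm_exp, mul_assoc, ← Real.exp_add, normSq_add]
  congr 2
  simp only [Complex.sub_re, Complex.neg_re, Complex.re_ofReal_mul, Complex.ofReal_re]
  ring

theorem eq_weyl (α : ℝ) (f : (Fin n → ℂ) → ℂ) (z h : Fin n → ℂ) :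
    f (z + h) = (Real.exp (α * normSq z / 2) : ℂ) * (Complex.exp (α * dot h z) * weyl α f z h) := by
  unfold weyl
  rw [Complex.ofReal_exp]
  have : Complex.exp ((α * normSq z / 2 : ℝ) : ℂ) * Complex.exp (α * dot h z) *
      Complex.exp (-(α * dot h z) - (α * normSq z / 2 : ℝ)) = 1 := by
    rw [← Complex.exp_add, ← Complex.exp_add, ← Complex.exp_zero]
    congr 1
    ring
  linear_combination (-f (z + h)) * this

/-- Local pointwise estimate of the weighted modulus. -/
theorem wt_local (α : ℝ) (hα : 0 < α) {f : (Fin n → ℂ) → ℂ} (hf : Differentiable ℂ f)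
    (q : ℝ) (hq : 0 < q) (ζ : Fin n → ℂ) :
    volume (closedBall (0 : Fin n → ℂ) 1) * ENNReal.ofReal (wt α f ζ ^ q)
      ≤ ENNReal.ofReal (Real.exp (α * n / 2) ^ q) *
        ∫⁻ h in closedBall (0 : Fin n → ℂ) 1, ENNReal.ofReal (wt α f (ζ + h) ^ q) := by
  have h1 := vol_mul_le_lintegral n _ (differentiable_weyl α hf ζ) q hq 1
  have h0 : ‖weyl α f ζ 0‖ = wt α f ζ := by
    rw [norm_weyl]; simp [normSq]
  rw [h0] at h1
  refine h1.trans ?_
  rw [← lintegral_const_mul' _ _ ENNReal.ofReal_ne_top]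
  refine setLIntegral_mono' measurableSet_closedBall fun h hh => ?_
  rw [← ENNReal.ofReal_mul (Real.rpow_nonneg (Real.exp_pos _).le _),
    ← Real.mul_rpow (Real.exp_pos _).le (wt_nonneg _ _ _)]
  apply ENNReal.ofReal_le_ofReal
  apply Real.rpow_le_rpow (norm_nonneg _) _ hq.le
  rw [norm_weyl, mul_comm]
  apply mul_le_mul_of_nonneg_right _ (wt_nonneg _ _ _)
  apply Real.exp_le_exp.mpr
  have := normSq_le h (r := 1) (by simpa using hh)
  nlinarith

/-- The local maximal function. -/
noncomputable def mx (α : ℝ) (f : (Fin n → ℂ) → ℂ) (z : Fin n → ℂ) : ℝ :=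
  sSup ((fun h => wt α f (z + h)) '' closedBall (0 : Fin n → ℂ) 2)

theorem continuous_mx (α : ℝ) {f : (Fin n → ℂ) → ℂ} (hf : Continuous f) :
    Continuous (mx α f) :=
  (isCompact_closedBall (0 : Fin n → ℂ) 2).continuous_sSup
    (f := fun z h => wt α f (z + h)) ((continuous_wt α hf).comp (continuous_fst.add continuous_snd))

theorem exists_mx (α : ℝ) {f : (Fin n → ℂ) → ℂ} (hf : Continuous f) (z : Fin n → ℂ) :
    ∃ h ∈ closedBall (0 : Fin n → ℂ) 2, mx α f z = wt α f (z + h) ∧
      ∀ k ∈ closedBall (0 : Fin n → ℂ) 2, wt α f (z + k) ≤ wt α f (z + h) :=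
  (isCompact_closedBall (0 : Fin n → ℂ) 2).exists_sSup_image_eq_and_ge
    ⟨0, by simp⟩ ((continuous_wt α hf).comp (continuous_const.add continuous_id)).continuousOn

theorem le_mx (α : ℝ) {f : (Fin n → ℂ) → ℂ} (hf : Continuous f) (z k : Fin n → ℂ)
    (hk : ‖k‖ ≤ 2) : wt α f (z + k) ≤ mx α f z := by
  obtain ⟨h, _, h2, h3⟩ := exists_mx α hf z
  rw [h2]; exact h3 k (by simpa using hk)

theorem mx_nonneg (α : ℝ) {f : (Fin n → ℂ) → ℂ} (hf : Continuous f) (z : Fin n → ℂ) :
    0 ≤ mx α f z :=
  (wt_nonneg _ _ _).trans (le_mx α hf z 0 (by simp))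

theorem memLp_mx (α : ℝ) (hα : 0 < α) {f : (Fin n → ℂ) → ℂ} (hf : Differentiable ℂ f)
    (p : ℝ≥0∞) (hp : 0 < p) (hfp : MemLp (wt α f) p volume) : MemLp (mx α f) p volume := by
  have hc := continuous_mx α hf.continuous
  have hw := continuous_wt α hf.continuous
  by_cases hpt : p = ⊤
  · subst hpt
    have h1 : ∀ᵐ z, ‖wt α f z‖ₑ ≤ eLpNormEssSup (wt α f) volume := ae_le_eLpNormEssSup
    have hfin : eLpNormEssSup (wt α f) volume ≠ ⊤ := by
      have := hfp.2.ne
      rwa [eLpNorm_exponent_top] at this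
    set M := (eLpNormEssSup (wt α f) volume).toReal with hM
    have h2 : ∀ᵐ z, wt α f z ≤ M := by
      filter_upwards [h1] with z hz
      have := ENNReal.toReal_mono hfin hz
      rw [toReal_enorm] at this
      exact (le_abs_self _).trans this
    have h3 : ∀ z, wt α f z ≤ M := by
      have hcl : IsClosed {z | wt α f z ≤ M} := isClosed_le hw continuous_const
      have hd : Dense {z | wt α f z ≤ M} := Measure.dense_of_ae h2
      intro z
      have : z ∈ closure {z | wt α f z ≤ M} := hd z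
      rwa [hcl.closure_eq] at this
    refine memLp_top_of_bound hc.aestronglyMeasurable M (Eventually.of_forall fun z => ?_)
    rw [Real.norm_of_nonneg (mx_nonneg α hf.continuous z)]
    obtain ⟨h, _, h2, _⟩ := exists_mx α hf.continuous z
    rw [h2]; exact h3 _
  · set q := p.toReal with hqdef
    have hq : 0 < q := ENNReal.toReal_pos hp.ne' hpt
    refine ⟨hc.aestronglyMeasurable, ?_⟩
    have hfin := (eLpNorm_lt_top_iff_lintegral_rpow_enorm_lt_top hp.ne' hpt).mp hfp.2
    rw [eLpNorm_lt_top_iff_lintegral_rpow_enorm_lt_top hp.ne' hpt]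
    have e1 : ∀ z, ‖wt α f z‖ₑ ^ q = ENNReal.ofReal (wt α f z ^ q) := fun z => by
      rw [Real.enorm_eq_ofReal (wt_nonneg _ _ _),
        ENNReal.ofReal_rpow_of_nonneg (wt_nonneg _ _ _) hq.le]
    have e2 : ∀ z, ‖mx α f z‖ₑ ^ q = ENNReal.ofReal (mx α f z ^ q) := fun z => by
      rw [Real.enorm_eq_ofReal (mx_nonneg α hf.continuous _),
        ENNReal.ofReal_rpow_of_nonneg (mx_nonneg α hf.continuous _) hq.le]
    simp_rw [← hqdef, e1] at hfin
    simp_rw [← hqdef, e2]
    set C := ENNReal.ofReal (Real.exp (α * n / 2) ^ q) with hC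
    set v := volume (closedBall (0 : Fin n → ℂ) 1) with hv
    have hv0 : v ≠ 0 := (measure_closedBall_pos volume _ one_pos).ne'
    have hvt : v ≠ ⊤ := measure_closedBall_lt_top.ne
    have hm : Measurable fun z => ENNReal.ofReal (wt α f z ^ q) :=
      (hw.rpow_const fun _ => Or.inr hq.le).measurable.ennreal_ofReal
    have hpt : ∀ z, v * ENNReal.ofReal (mx α f z ^ q) ≤
        C * ∫⁻ h in closedBall (0 : Fin n → ℂ) 3, ENNReal.ofReal (wt α f (z + h) ^ q) := by
      intro z
      obtain ⟨k, hk, h2, _⟩ := exists_mx α hf.continuous z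
      rw [h2]
      refine (wt_local α hα hf q hq (z + k)).trans (mul_le_mul_right ?_ _)
      have hmp : MeasurePreserving (fun h : Fin n → ℂ => k + h) volume volume :=
        measurePreserving_add_left volume k
      have := hmp.setLIntegral_comp_preimage (s := closedBall 0 3) measurableSet_closedBall
        (f := fun h => ENNReal.ofReal (wt α f (z + h) ^ q)) (hm.comp (measurable_const_add z))
      rw [← this]
      simp_rw [add_assoc]
      apply lintegral_mono_set
      intro h hh
      simp only [mem_closedBall, dist_zero_right, mem_preimage] at hh hk ⊢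
      exact (norm_add_le _ _).trans (by linarith)
    have hsw : ∫⁻ z, ∫⁻ h in closedBall (0 : Fin n → ℂ) 3, ENNReal.ofReal (wt α f (z + h) ^ q)
        = (∫⁻ z, ENNReal.ofReal (wt α f z ^ q)) * volume (closedBall (0 : Fin n → ℂ) 3) := by
      rw [lintegral_lintegral_swap (f := fun z h => ENNReal.ofReal (wt α f (z + h) ^ q))
        ((hm.comp (measurable_fst.add measurable_snd)).aemeasurable)]
      simp_rw [lintegral_add_right_eq_self (fun z => ENNReal.ofReal (wt α f z ^ q))]
      rw [setLIntegral_const]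
    have hle : v * ∫⁻ z, ENNReal.ofReal (mx α f z ^ q) ≤
        C * ((∫⁻ z, ENNReal.ofReal (wt α f z ^ q)) * volume (closedBall (0 : Fin n → ℂ) 3)) := by
      rw [← hsw, ← lintegral_const_mul' _ _ hvt, ← lintegral_const_mul' _ _ ENNReal.ofReal_ne_top]
      exact lintegral_mono hpt
    have hlt : C * ((∫⁻ z, ENNReal.ofReal (wt α f z ^ q)) *
        volume (closedBall (0 : Fin n → ℂ) 3)) < ⊤ :=
      ENNReal.mul_lt_top ENNReal.ofReal_lt_top (ENNReal.mul_lt_top hfin measure_closedBall_lt_top)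
    by_contra hcon
    have : ∫⁻ z, ENNReal.ofReal (mx α f z ^ q) = ⊤ := by simpa using hcon
    rw [this, ENNReal.mul_top hv0] at hle
    exact absurd (hle.trans_lt hlt) (lt_irrefl _)

/-- The entire function whose weighted `L¹` norm is the induced distance. -/
noncomputable def ker (α : ℝ) (z w u : Fin n → ℂ) : ℂ :=
  Complex.exp (α * dot u z) - Complex.exp (α * dot u w)

theorem differentiable_ker (α : ℝ) (z w : Fin n → ℂ) : Differentiable ℂ (ker α z w) := by
  have h1 := differentiable_dot_left z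
  have h2 := differentiable_dot_left w
  unfold ker; fun_prop

theorem norm_ker (α : ℝ) (z w u : Fin n → ℂ) :
    ‖Complex.exp (α * dot z u) - Complex.exp (α * dot w u)‖ = ‖ker α z w u‖ := by
  rw [← Complex.norm_conj, ker, map_sub, ← Complex.exp_conj, ← Complex.exp_conj, map_mul, map_mul,
    conj_dot, conj_dot, Complex.conj_ofReal]

theorem integrable_gaussian (α : ℝ) (hα : 0 < α) :
    Integrable (fun u : Fin n → ℂ => Real.exp (-α * normSq u / 2)) := by
  have h1 : Integrable (fun u : ℂ => Real.exp (-α * ‖u‖ ^ 2 / 2)) := by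
    have := (GaussianFourier.integrable_cexp_neg_mul_sq_norm_add (V := ℂ) (b := (α / 2 : ℝ))
      (by simpa using hα) 0 0).norm
    refine this.congr (Eventually.of_forall fun u => ?_)
    simp only [Complex.norm_exp, zero_mul, add_zero]
    congr 1
    rw [← Complex.ofReal_pow, ← Complex.ofReal_neg, ← Complex.ofReal_mul, Complex.ofReal_re]
    ring
  have h2 := Integrable.fintype_prod (f := fun (_ : Fin n) (u : ℂ) => Real.exp (-α * ‖u‖ ^ 2 / 2))
    (fun _ => h1)
  refine h2.congr (Eventually.of_forall fun u => ?_)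
  simp only [normSq]
  rw [← Real.exp_sum, Finset.mul_sum, Finset.sum_div]

theorem wt_exp (α : ℝ) (z v : Fin n → ℂ) :
    ‖Complex.exp (α * dot (z + v) z)‖ * Real.exp (-α * normSq (z + v) / 2)
      = Real.exp (α * normSq z / 2) * Real.exp (-α * normSq v / 2) := by
  rw [Complex.norm_exp, ← Real.exp_add, ← Real.exp_add, normSq_add, dot_add_left, dot_self]
  congr 1
  simp only [Complex.re_ofReal_mul, Complex.add_re, Complex.ofReal_re]
  ring

theorem integrable_wt_exp (α : ℝ) (hα : 0 < α) (z : Fin n → ℂ) :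
    Integrable (fun u : Fin n → ℂ =>
      ‖Complex.exp (α * dot u z)‖ * Real.exp (-α * normSq u / 2)) := by
  have h1 := ((integrable_gaussian (n := n) α hα).const_mul
    (Real.exp (α * normSq z / 2))).comp_sub_right z
  refine h1.congr (Eventually.of_forall fun u => ?_)
  have := wt_exp α z (u - z)
  simp only [add_sub_cancel] at this
  simp only [this]

theorem integrable_wt_ker (α : ℝ) (hα : 0 < α) (z w : Fin n → ℂ) :
    Integrable (wt α (ker α z w)) := by
  refine ((integrable_wt_exp α hα z).add (integrable_wt_exp α hα w)).mono'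
    (continuous_wt α (differentiable_ker α z w).continuous).aestronglyMeasurable
    (Eventually.of_forall fun u => ?_)
  rw [Real.norm_of_nonneg (wt_nonneg _ _ _)]
  simp only [Pi.add_apply, wt, ker]
  rw [← add_mul]
  exact mul_le_mul_of_nonneg_right (norm_sub_le _ _) (Real.exp_pos _).le

theorem fockDist_eq (α : ℝ) (hα : 0 < α) (z w : Fin n → ℂ) :
    fockDist α z w = (α / 2 / Real.pi) ^ n * ∫ u, wt α (ker α z w) u := by
  have hc := continuous_normSq (n := n)
  unfold fockDist gauss
  rw [integral_withDensity_eq_integral_toReal_smul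
    (Measurable.ennreal_ofReal (by fun_prop)) (Eventually.of_forall fun _ => ENNReal.ofReal_lt_top),
    ← integral_const_mul]
  congr 1
  ext u
  rw [ENNReal.toReal_ofReal (by positivity), norm_ker, smul_eq_mul, wt]
  have : -(α / 2) * normSq u = -α * normSq u / 2 := by ring
  rw [this]; ring

theorem fockDist_nonneg (α : ℝ) (z w : Fin n → ℂ) : 0 ≤ fockDist α z w :=
  integral_nonneg fun _ => norm_nonneg _

theorem fockDist_comm (α : ℝ) (z w : Fin n → ℂ) : fockDist α z w = fockDist α w z := by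
  unfold fockDist
  simp_rw [norm_sub_rev (Complex.exp (α * dot z _))]

/-- Pointwise bound of the weighted kernel difference by the distance. -/
theorem exists_wt_ker_le (n : ℕ) (α : ℝ) (hα : 0 < α) :
    ∃ K : ℝ, 0 < K ∧ ∀ z w ζ : Fin n → ℂ, wt α (ker α z w) ζ ≤ K * fockDist α z w := by
  set v := (volume (closedBall (0 : Fin n → ℂ) 1)).toReal with hv
  have hv0 : 0 < v := ENNReal.toReal_pos (measure_closedBall_pos volume _ one_pos).ne'
    measure_closedBall_lt_top.ne
  have hc : 0 < (α / 2 / Real.pi) ^ n := by have := Real.pi_pos; positivity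
  refine ⟨Real.exp (α * n / 2) / (v * (α / 2 / Real.pi) ^ n), by positivity, fun z w ζ => ?_⟩
  have h1 := wt_local α hα (differentiable_ker α z w) 1 one_pos ζ
  simp only [Real.rpow_one] at h1
  have h2 : ∫⁻ h in closedBall (0 : Fin n → ℂ) 1, ENNReal.ofReal (wt α (ker α z w) (ζ + h))
      ≤ ENNReal.ofReal (∫ u, wt α (ker α z w) u) := by
    rw [ofReal_integral_eq_lintegral_ofReal (integrable_wt_ker α hα z w)
      (Eventually.of_forall fun _ => wt_nonneg _ _ _),
      ← lintegral_add_left_eq_self (fun u => ENNReal.ofReal (wt α (ker α z w) u)) ζ]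
    exact setLIntegral_le_lintegral _ _
  have h3 := h1.trans (mul_le_mul_right h2 _)
  have hI : 0 ≤ ∫ u, wt α (ker α z w) u := integral_nonneg fun _ => wt_nonneg _ _ _
  rw [← ENNReal.ofReal_mul (Real.exp_pos _).le] at h3
  have h4 := ENNReal.toReal_mono ENNReal.ofReal_ne_top h3
  rw [ENNReal.toReal_mul, ENNReal.toReal_ofReal (wt_nonneg _ _ _),
    ENNReal.toReal_ofReal (by positivity), ← hv] at h4
  rw [fockDist_eq α hα]
  have : Real.exp (α * n / 2) / (v * (α / 2 / Real.pi) ^ n) *
      ((α / 2 / Real.pi) ^ n * ∫ u, wt α (ker α z w) u)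
      = Real.exp (α * n / 2) * (∫ u, wt α (ker α z w) u) / v := by
    field_simp
  rw [this, le_div_iff₀ hv0, mul_comm]
  exact h4

theorem wt_ker_add (α : ℝ) (z h v : Fin n → ℂ) :
    wt α (ker α z (z + h)) (z + v) = Real.exp (α * normSq z / 2) * Real.exp (-α * normSq v / 2) *
      ‖1 - Complex.exp (α * dot z h) * Complex.exp (α * dot v h)‖ := by
  have e : ker α z (z + h) (z + v) = Complex.exp (α * dot (z + v) z) *
      (1 - Complex.exp (α * dot z h) * Complex.exp (α * dot v h)) := by
    unfold ker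
    rw [dot_add_right (z + v) z h, dot_add_left z v h, mul_add, mul_add, Complex.exp_add,
      Complex.exp_add]
    ring
  rw [wt, e, norm_mul, ← wt_exp]; ring

theorem norm_one_sub_exp_dot (α : ℝ) (z h : Fin n → ℂ) :
    ‖1 - Complex.exp (α * dot h z)‖ = ‖1 - Complex.exp (α * dot z h)‖ := by
  rw [← Complex.norm_conj, map_sub, ← Complex.exp_conj, map_mul, conj_dot, Complex.conj_ofReal,
    map_one]

theorem norm_exp_dot (α : ℝ) (z h : Fin n → ℂ) :
    ‖Complex.exp (α * dot h z)‖ = ‖Complex.exp (α * dot z h)‖ := by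
  rw [← Complex.norm_conj, ← Complex.exp_conj, map_mul, conj_dot, Complex.conj_ofReal]

/-- The two lower bounds for the induced distance. -/
theorem exists_lower (n : ℕ) (α : ℝ) (hα : 0 < α) :
    ∃ K : ℝ, 0 < K ∧ ∀ z h : Fin n → ℂ,
      Real.exp (α * normSq z / 2) * ‖1 - Complex.exp (α * dot h z)‖ ≤ K * fockDist α z (z + h) ∧
      Real.exp (α * normSq z / 2) * (‖Complex.exp (α * dot h z)‖ * ‖h‖)
        ≤ K * fockDist α z (z + h) := by
  obtain ⟨K, hK, hle⟩ := exists_wt_ker_le n α hα
  have hE : 0 < Real.exp (α * n / 2) := Real.exp_pos _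
  refine ⟨K + K * (1 + Real.exp (α * n / 2)) / α, by positivity, fun z h => ?_⟩
  have hd := fockDist_nonneg α z (z + h)
  set d := fockDist α z (z + h) with hddef
  set E := Real.exp (α * normSq z / 2) with hEdef
  have hEpos : 0 < E := Real.exp_pos _
  set b := Complex.exp (α * dot z h) with hb
  have h1 : E * ‖1 - b‖ ≤ K * d := by
    have := hle z (z + h) (z + 0)
    have h0 : normSq (0 : Fin n → ℂ) = 0 := by simp [normSq]
    rw [wt_ker_add, dot_zero_left, ← hb, ← hEdef, ← hddef, h0] at this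
    simpa using this
  rw [norm_one_sub_exp_dot, norm_exp_dot, ← hb]
  have hpos : 0 ≤ K * (1 + Real.exp (α * n / 2)) / α * d := by positivity
  refine ⟨by nlinarith, ?_⟩
  by_cases hh : h = 0
  · subst hh
    simp only [norm_zero, mul_zero]
    positivity
  have hn : 0 < ‖h‖ := norm_pos_iff.mpr hh
  set v : Fin n → ℂ := ((‖h‖⁻¹ : ℝ) : ℂ) • h with hv
  have hvn : ‖v‖ ≤ 1 := by
    rw [hv, norm_smul, Complex.norm_real, Real.norm_of_nonneg (by positivity),
      inv_mul_cancel₀ hn.ne']
  set t : ℝ := α * (‖h‖⁻¹ * normSq h) with ht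
  have hdv : (α : ℂ) * dot v h = (t : ℂ) := by
    rw [hv, dot_smul_left, dot_self, ht]; push_cast; ring
  have htge : α * ‖h‖ ≤ t := by
    apply mul_le_mul_of_nonneg_left _ hα.le
    rw [le_inv_mul_iff₀ hn]
    have := norm_sq_le_normSq h
    nlinarith
  have h2 : E * ‖1 - b * Complex.exp t‖ ≤ Real.exp (α * n / 2) * (K * d) := by
    have h3 := hle z (z + h) (z + v)
    rw [wt_ker_add, hdv, ← hb, ← hEdef, ← hddef] at h3
    have h4 : 1 ≤ Real.exp (α * n / 2) * Real.exp (-α * normSq v / 2) := by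
      rw [← Real.exp_add]
      apply Real.one_le_exp
      have := normSq_le v hvn
      nlinarith
    have h5 : 0 ≤ E * ‖1 - b * Complex.exp t‖ := by positivity
    calc _ ≤ (Real.exp (α * n / 2) * Real.exp (-α * normSq v / 2)) *
          (E * ‖1 - b * Complex.exp t‖) := le_mul_of_one_le_left h5 h4
      _ = Real.exp (α * n / 2) * (E * Real.exp (-α * normSq v / 2) * ‖1 - b * Complex.exp t‖) := by
          ring
      _ ≤ _ := mul_le_mul_of_nonneg_left h3 hE.le
  have h6 : ‖b‖ * (α * ‖h‖) ≤ ‖1 - b‖ + ‖1 - b * Complex.exp t‖ := by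
    have e : b * ((Real.exp t - 1 : ℝ) : ℂ) = (1 - b) - (1 - b * Complex.exp t) := by
      push_cast; ring
    have h7 : α * ‖h‖ ≤ Real.exp t - 1 := by have := Real.add_one_le_exp t; linarith
    have h8 : 0 ≤ Real.exp t - 1 := le_trans (by positivity) h7
    calc ‖b‖ * (α * ‖h‖) ≤ ‖b‖ * (Real.exp t - 1) :=
          mul_le_mul_of_nonneg_left h7 (norm_nonneg _)
      _ = ‖b * ((Real.exp t - 1 : ℝ) : ℂ)‖ := by
          rw [norm_mul, Complex.norm_real, Real.norm_of_nonneg h8]
      _ ≤ _ := by rw [e]; exact norm_sub_le _ _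
  have h9 : E * (‖b‖ * ‖h‖) ≤ K * (1 + Real.exp (α * n / 2)) / α * d := by
    rw [div_mul_eq_mul_div, le_div_iff₀ hα]
    have := mul_le_mul_of_nonneg_left h6 hEpos.le
    nlinarith
  have : 0 ≤ K * d := by positivity
  nlinarith

/-- The estimate for the pair `(z, z + h)` when `|z + h| ≤ |z|`. -/
theorem exists_main (n : ℕ) (α : ℝ) (hα : 0 < α) :
    ∃ C : ℝ, 0 < C ∧ ∀ f : (Fin n → ℂ) → ℂ, Differentiable ℂ f → ∀ z h : Fin n → ℂ,
      normSq (z + h) ≤ normSq z →
      ‖f z - f (z + h)‖ ≤ fockDist α z (z + h) * (C * mx α f z + C * mx α f (z + h)) := by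
  obtain ⟨K, hK, hlow⟩ := exists_lower n α hα
  have hδ : 0 < 1 - Real.exp (-α / 2) := by
    have : Real.exp (-α / 2) < 1 := Real.exp_lt_one_iff.mpr (by linarith)
    linarith
  set δ := 1 - Real.exp (-α / 2) with hδdef
  set B := Real.exp (α * (n * 2 ^ 2) / 2) with hB
  have hBpos : 0 < B := Real.exp_pos _
  refine ⟨2 * K * B + K / δ, by positivity, fun f hf z h hzh => ?_⟩
  obtain ⟨h1, h2⟩ := hlow z h
  have hd := fockDist_nonneg α z (z + h)
  set d := fockDist α z (z + h) with hddef
  set E := Real.exp (α * normSq z / 2) with hEdef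
  have hEpos : 0 < E := Real.exp_pos _
  set a := Complex.exp (α * dot h z) with ha
  have hG1 := mx_nonneg α hf.continuous z
  have hG2 := mx_nonneg α hf.continuous (z + h)
  set G1 := mx α f z with hG1def
  set G2 := mx α f (z + h) with hG2def
  have hKδ : 0 < K / δ := by positivity
  by_cases hh : ‖h‖ < 2
  · have hM : ∀ k : Fin n → ℂ, ‖k‖ ≤ 2 → ‖weyl α f z k‖ ≤ G1 * B := by
      intro k hk
      rw [norm_weyl]
      apply mul_le_mul (le_mx α hf.continuous z k hk) _ (Real.exp_pos _).le hG1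
      apply Real.exp_le_exp.mpr
      have := normSq_le k hk
      nlinarith
    have hS := Complex.dist_le_div_mul_dist_of_mapsTo_ball (f := weyl α f z) (c := 0) (z := h)
      (R₁ := 2) (R₂ := 2 * (G1 * B)) (differentiable_weyl α hf z).differentiableOn
      (fun k hk => by
        have hk' : ‖k‖ ≤ 2 := by
          have : ‖k‖ < 2 := by simpa using hk
          exact this.le
        rw [mem_closedBall, dist_eq_norm]
        have := hM k hk'
        have := hM 0 (by simp)
        exact (norm_sub_le _ _).trans (by linarith))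
      (by simpa using hh)
    rw [dist_eq_norm, dist_zero_right] at hS
    have e1 := eq_weyl α f z h
    have e2 := eq_weyl α f z 0
    rw [dot_zero_left, mul_zero, Complex.exp_zero, one_mul, add_zero] at e2
    rw [← ha, ← hEdef] at e1
    rw [← hEdef] at e2
    have e3 : f z - f (z + h) = (E : ℂ) * ((1 - a) * weyl α f z 0
        - a * (weyl α f z h - weyl α f z 0)) := by
      rw [e1]; nth_rewrite 1 [e2]; ring
    have h3 : ‖f z - f (z + h)‖ ≤ E * (‖1 - a‖ * (G1 * B) + ‖a‖ * (G1 * B * ‖h‖)) := by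
      rw [e3, norm_mul, Complex.norm_real, Real.norm_of_nonneg hEpos.le]
      apply mul_le_mul_of_nonneg_left _ hEpos.le
      refine (norm_sub_le _ _).trans ?_
      rw [norm_mul, norm_mul]
      apply add_le_add
      · exact mul_le_mul_of_nonneg_left (hM 0 (by simp)) (norm_nonneg _)
      · apply mul_le_mul_of_nonneg_left _ (norm_nonneg _)
        refine hS.trans_eq ?_
        ring
    have hGB : 0 ≤ G1 * B := by positivity
    calc ‖f z - f (z + h)‖ ≤ (E * ‖1 - a‖ + E * (‖a‖ * ‖h‖)) * (G1 * B) := by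
          refine h3.trans_eq ?_
          ring
      _ ≤ (K * d + K * d) * (G1 * B) := mul_le_mul_of_nonneg_right (add_le_add h1 h2) hGB
      _ = d * (2 * K * B * G1) := by ring
      _ ≤ _ := by
          apply mul_le_mul_of_nonneg_left _ hd
          have : 0 ≤ K / δ * G1 := by positivity
          have : 0 ≤ (2 * K * B + K / δ) * G2 := by positivity
          nlinarith
  · push Not at hh
    have hsq : 1 ≤ normSq h := by
      have := norm_sq_le_normSq h
      nlinarith
    have hna : ‖a‖ ≤ Real.exp (-α / 2) := by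
      rw [ha, Complex.norm_exp, Complex.re_ofReal_mul]
      apply Real.exp_le_exp.mpr
      rw [normSq_add] at hzh
      nlinarith
    have hδa : δ ≤ ‖1 - a‖ := by
      have := norm_sub_norm_le (1 : ℂ) a
      rw [norm_one] at this
      linarith
    have hEd : E ≤ K / δ * d := by
      rw [div_mul_eq_mul_div, le_div_iff₀ hδ]
      exact (mul_le_mul_of_nonneg_left hδa hEpos.le).trans h1
    have hval : ∀ y : Fin n → ℂ, normSq y ≤ normSq z → ‖f y‖ ≤ E * mx α f y := by
      intro y hy
      have h3 := le_mx α hf.continuous y 0 (by simp)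
      rw [add_zero, wt] at h3
      have h4 : 1 ≤ E * Real.exp (-α * normSq y / 2) := by
        rw [hEdef, ← Real.exp_add]
        apply Real.one_le_exp
        nlinarith
      calc ‖f y‖ ≤ (E * Real.exp (-α * normSq y / 2)) * ‖f y‖ :=
            le_mul_of_one_le_left (norm_nonneg _) h4
        _ = E * (‖f y‖ * Real.exp (-α * normSq y / 2)) := by ring
        _ ≤ _ := mul_le_mul_of_nonneg_left h3 hEpos.le
    calc ‖f z - f (z + h)‖ ≤ ‖f z‖ + ‖f (z + h)‖ := norm_sub_le _ _
      _ ≤ E * G1 + E * G2 := add_le_add (hval z le_rfl) (hval (z + h) hzh)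
      _ = E * (G1 + G2) := by ring
      _ ≤ (K / δ * d) * (G1 + G2) := mul_le_mul_of_nonneg_right hEd (by positivity)
      _ = d * (K / δ * G1 + K / δ * G2) := by ring
      _ ≤ _ := by
          apply mul_le_mul_of_nonneg_left _ hd
          have : 0 ≤ 2 * K * B * G1 := by positivity
          have : 0 ≤ 2 * K * B * G2 := by positivity
          nlinarith

end Aux

/-- Every `f ∈ F^p_α` satisfies condition (L). -/
theorem result (n : ℕ) (_hn : 1 ≤ n) (α : ℝ) (hα : 0 < α) (p : ℝ≥0∞) (hp : 0 < p)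
    (f : (Fin n → ℂ) → ℂ) (hf : Differentiable ℂ f)
    (hfp : MemLp (fun z => f z * (Real.exp (-α * normSq z / 2) : ℂ)) p volume) :
    ∃ g : (Fin n → ℂ) → ℝ, Continuous g ∧ (∀ z, 0 ≤ g z) ∧ MemLp g p volume ∧
      ∀ z w, ‖f z - f w‖ ≤ fockDist α z w * (g z + g w) := by
  obtain ⟨C, hC, hmain⟩ := exists_main n α hα
  have hw : MemLp (wt α f) p volume := by
    have := hfp.norm
    convert this using 2 with z
    rw [wt, norm_mul, Complex.norm_real, Real.norm_of_nonneg (Real.exp_pos _).le]
  refine ⟨fun z => C * mx α f z, continuous_const.mul (continuous_mx α hf.continuous),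
    fun z => mul_nonneg hC.le (mx_nonneg α hf.continuous z),
    (memLp_mx α hα hf p hp hw).const_mul C, fun z w => ?_⟩
  rcases le_total (normSq w) (normSq z) with h | h
  · have := hmain f hf z (w - z) (by simpa using h)
    simpa using this
  · have := hmain f hf w (z - w) (by simpa using h)
    rw [norm_sub_rev, fockDist_comm, add_comm]
    simpa using this

end Pool.Agent.Results.MP_09e892_an.FockLipschitz
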