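import Mathlib
import Pool.Agent.Results.MP_09e892_an.FockLipschitz

/-!
The sharp upper bound of the induced distance `d_α` by a closed form, for all pairs of points.
-/

namespace Pool.Agent.Results.MP_09e892_an.TwoSided

open MeasureTheory
open Pool.Agent.Results.MP_09e892_an.FockLipschitz

variable {n : ℕ}

theorem gauss_one {β : ℝ} (hβ : 0 < β) (p q : ℂ) :
    Integrable (fun u : ℂ => Complex.exp (-β * ‖u‖ ^ 2 + u * p + q * (starRingEnd ℂ) u)) ∧
    ∫ u : ℂ, Complex.exp (-β * ‖u‖ ^ 2 + u * p + q * (starRingEnd ℂ) u) =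
      Real.pi / β * Complex.exp (q * p / β) := by
  have hb : (-(β : ℂ)).re < 0 := by simpa using hβ
  have hβ' : (β : ℂ) ≠ 0 := by exact_mod_cast hβ.ne'
  have e : (fun u : ℂ => Complex.exp (-β * ‖u‖ ^ 2 + u * p + q * (starRingEnd ℂ) u)) =
      (fun z : ℝ × ℝ => Complex.exp (-β * z.1 ^ 2 + (p + q) * z.1 + 0) *
        Complex.exp (-β * z.2 ^ 2 + (Complex.I * (p - q)) * z.2 + 0)) ∘
        Complex.measurableEquivRealProd := by
    ext u
    have h1 : ((‖u‖ : ℂ)) ^ 2 = u.re ^ 2 + u.im ^ 2 := by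
      rw [← Complex.ofReal_pow, Complex.sq_norm, Complex.normSq_apply]; push_cast; ring
    have h2 : (starRingEnd ℂ) u = u.re - u.im * Complex.I := by
      apply Complex.ext <;> simp
    simp only [Function.comp, Complex.measurableEquivRealProd_apply, ← Complex.exp_add, h1, h2]
    congr 1
    nth_rewrite 3 [← Complex.re_add_im u]
    ring
  have hm := Complex.volume_preserving_equiv_real_prod
  rw [e]
  refine ⟨(hm.integrable_comp_emb (MeasurableEquiv.measurableEmbedding _)).2
    ((integrable_cexp_quadratic' hb (p + q) 0).mul_prod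
      (integrable_cexp_quadratic' hb (Complex.I * (p - q)) 0)), ?_⟩
  refine (hm.integral_comp' (fun z : ℝ × ℝ => Complex.exp (-β * z.1 ^ 2 + (p + q) * z.1 + 0) *
    Complex.exp (-β * z.2 ^ 2 + (Complex.I * (p - q)) * z.2 + 0))).trans ?_
  refine (integral_prod_mul (fun x : ℝ => Complex.exp (-β * x ^ 2 + (p + q) * x + 0))
    (fun x : ℝ => Complex.exp (-β * x ^ 2 + (Complex.I * (p - q)) * x + 0))).trans ?_
  rw [integral_cexp_quadratic hb, integral_cexp_quadratic hb, neg_neg, mul_mul_mul_comm,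
    ← Complex.cpow_add _ _ (div_ne_zero (by exact_mod_cast Real.pi_ne_zero) hβ'),
    ← Complex.exp_add, add_halves, Complex.cpow_one]
  congr 2
  field_simp
  rw [Complex.I_sq]
  ring

/-- A Gaussian times an exponential. -/
noncomputable def G (β : ℝ) (a b u : Fin n → ℂ) : ℂ :=
  Complex.exp (-β * normSq u + dot u a + dot b u)

theorem G_eq (β : ℝ) (a b : Fin n → ℂ) : G β a b = fun u => ∏ j,
    Complex.exp (-β * ‖u j‖ ^ 2 + u j * (starRingEnd ℂ) (a j) + b j * (starRingEnd ℂ) (u j)) := by
  ext u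
  rw [← Complex.exp_sum, G, normSq, dot, dot, Finset.sum_add_distrib, Finset.sum_add_distrib,
    ← Finset.mul_sum]
  push_cast
  rfl

theorem integrable_G {β : ℝ} (hβ : 0 < β) (a b : Fin n → ℂ) : Integrable (G β a b) := by
  rw [G_eq]
  exact Integrable.fintype_prod (f := fun j (u : ℂ) =>
    Complex.exp (-β * ‖u‖ ^ 2 + u * (starRingEnd ℂ) (a j) + b j * (starRingEnd ℂ) u))
    fun j => (gauss_one hβ _ _).1

theorem integral_G {β : ℝ} (hβ : 0 < β) (a b : Fin n → ℂ) :
    ((β / Real.pi) ^ n : ℝ) * ∫ u, G β a b u = Complex.exp (dot b a / β) := by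
  have hβ' : (β : ℂ) ≠ 0 := by exact_mod_cast hβ.ne'
  have hπ : (Real.pi : ℂ) ≠ 0 := by exact_mod_cast Real.pi_ne_zero
  rw [G_eq, integral_fintype_prod_volume_eq_prod (fun j (u : ℂ) =>
    Complex.exp (-β * ‖u‖ ^ 2 + u * (starRingEnd ℂ) (a j) + b j * (starRingEnd ℂ) u))]
  simp only [(gauss_one hβ _ _).2]
  rw [Finset.prod_mul_distrib, ← Complex.exp_sum, Finset.prod_const, Finset.card_univ,
    Fintype.card_fin, ← mul_assoc, dot, Finset.sum_div]
  push_cast
  rw [← mul_pow, div_mul_div_cancel₀ hπ, div_self hβ', one_pow, one_mul]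

theorem dot_smul_right (c : ℝ) (z u : Fin n → ℂ) : dot z ((c : ℂ) • u) = c * dot z u := by
  simp [dot, Finset.mul_sum, mul_left_comm]

theorem sq_int {β : ℝ} (hβ : 0 < β) (z w : Fin n → ℂ) (ε : ℝ) (hε : ε ^ 2 = 1) :
    Integrable (fun u => ‖Complex.exp (β * dot u z) + ε * Complex.exp (β * dot u w)‖ ^ 2 *
      Real.exp (-β * normSq u)) ∧
    (β / Real.pi) ^ n * ∫ u, ‖Complex.exp (β * dot u z) + ε * Complex.exp (β * dot u w)‖ ^ 2 *
      Real.exp (-β * normSq u) = Real.exp (β * normSq z) + Real.exp (β * normSq w) +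
        2 * ε * (Complex.exp (β * dot z w)).re := by
  have hβ' : (β : ℂ) ≠ 0 := by exact_mod_cast hβ.ne'
  let g : (Fin n → ℂ) → (Fin n → ℂ) → (Fin n → ℂ) → ℂ := fun a b =>
    G β ((β : ℂ) • a) ((β : ℂ) • b)
  have hg : ∀ a b u, g a b u = Complex.exp (β * dot u a) *
      (starRingEnd ℂ) (Complex.exp (β * dot u b)) * Real.exp (-β * normSq u) := by
    intro a b u
    rw [← Complex.exp_conj, map_mul, conj_dot, Complex.conj_ofReal, Complex.ofReal_exp,
      ← Complex.exp_add, ← Complex.exp_add]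
    simp only [g, G, dot_smul_right, dot_smul_left]
    congr 1
    push_cast
    ring
  have hi : ∀ a b, ((β / Real.pi) ^ n : ℝ) * ∫ u, g a b u = Complex.exp (β * dot b a) := by
    intro a b
    rw [integral_G hβ, dot_smul_right, dot_smul_left, mul_div_cancel_left₀ _ hβ']
  have e : ∀ u, ((‖Complex.exp (β * dot u z) + ε * Complex.exp (β * dot u w)‖ ^ 2 *
      Real.exp (-β * normSq u) : ℝ) : ℂ) = g z z u + g w w u + ε * (g z w u + g w z u) := by
    intro u
    have hε' : (ε : ℂ) ^ 2 = 1 := by exact_mod_cast hε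
    rw [Complex.ofReal_mul, Complex.sq_norm, ← Complex.mul_conj, hg, hg, hg, hg, map_add, map_mul,
      Complex.conj_ofReal]
    linear_combination (Complex.exp (β * dot u w) * (starRingEnd ℂ) (Complex.exp (β * dot u w)) *
      Real.exp (-β * normSq u)) * hε'
  have i : ∀ a b, Integrable (g a b) := fun a b => integrable_G hβ _ _
  have i1 : Integrable fun u => g z z u + g w w u := (i z z).add (i w w)
  have i2 : Integrable fun u => (ε : ℂ) * (g z w u + g w z u) := ((i z w).add (i w z)).const_mul _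
  constructor
  · refine (i1.add i2).re.congr (Filter.Eventually.of_forall fun u => ?_)
    simp only [Pi.add_apply, ← e, RCLike.re_to_complex, Complex.ofReal_re]
  · apply Complex.ofReal_injective
    rw [Complex.ofReal_mul, ← integral_complex_ofReal]
    simp only [e]
    rw [integral_add i1 i2, integral_add (i z z) (i w w), integral_const_mul,
      integral_add (i z w) (i w z), mul_add, mul_add, mul_left_comm, mul_add, hi, hi, hi, hi,
      dot_self, dot_self]
    have h4 : Complex.exp (β * dot w z) = (starRingEnd ℂ) (Complex.exp (β * dot z w)) := by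
      rw [← Complex.exp_conj, map_mul, conj_dot, Complex.conj_ofReal]
    rw [h4, add_comm ((starRingEnd ℂ) _), Complex.add_conj]
    push_cast
    ring

theorem upper (α : ℝ) (hα : 0 < α) (z w : Fin n → ℂ) : fockDist α z w ^ 2 ≤
    2 * (Real.exp (α * normSq z) + Real.exp (α * normSq w) -
      2 * (Complex.exp (α * dot z w)).re) := by
  have hβ : 0 < α / 2 := by linarith
  have hc : 0 < (α / 2 / Real.pi) ^ n := by have := Real.pi_pos; positivity
  obtain ⟨i1, e1⟩ := sq_int hβ z w (-1) (by norm_num)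
  obtain ⟨i2, e2⟩ := sq_int hβ z w 1 (by norm_num)
  have hsq : ∀ y : ℂ, Complex.exp (α * y) = Complex.exp ((α / 2 : ℝ) * y) ^ 2 := by
    intro y
    rw [← Complex.exp_nat_mul]
    congr 1
    push_cast
    ring
  have key : ∀ s : ℝ, 0 ≤ (Real.exp (α / 2 * normSq z) + Real.exp (α / 2 * normSq w) +
      2 * -1 * (Complex.exp ((α / 2 : ℝ) * dot z w)).re) * (s * s) + -(2 * fockDist α z w) * s +
      (Real.exp (α / 2 * normSq z) + Real.exp (α / 2 * normSq w) +
      2 * 1 * (Complex.exp ((α / 2 : ℝ) * dot z w)).re) := by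
    intro s
    have h1 := integral_mono ((integrable_wt_ker α hα z w).const_mul (2 * s))
      ((i1.const_mul (s * s)).add i2) fun u => by
        have e : ker α z w u = (Complex.exp ((α / 2 : ℝ) * dot u z) +
            ((-1 : ℝ) : ℂ) * Complex.exp ((α / 2 : ℝ) * dot u w)) *
            (Complex.exp ((α / 2 : ℝ) * dot u z) +
            ((1 : ℝ) : ℂ) * Complex.exp ((α / 2 : ℝ) * dot u w)) := by
          rw [ker, hsq, hsq]
          push_cast
          ring
        have e' : -α * normSq u / 2 = -(α / 2) * normSq u := by ring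
        simp only [Pi.add_apply, wt, e, norm_mul, e']
        nlinarith [mul_nonneg (Real.exp_pos (-(α / 2) * normSq u)).le (sq_nonneg
          (s * ‖Complex.exp ((α / 2 : ℝ) * dot u z) +
            ((-1 : ℝ) : ℂ) * Complex.exp ((α / 2 : ℝ) * dot u w)‖ -
            ‖Complex.exp ((α / 2 : ℝ) * dot u z) +
            ((1 : ℝ) : ℂ) * Complex.exp ((α / 2 : ℝ) * dot u w)‖))]
    simp only [Pi.add_apply] at h1
    rw [integral_add (i1.const_mul _) i2, integral_const_mul, integral_const_mul] at h1
    have h2 := mul_le_mul_of_nonneg_left h1 hc.le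
    rw [← e1, ← e2, fockDist_eq α hα]
    linarith
  have h3 := discrim_le_zero key
  have hr : ∀ t : ℝ, Real.exp (α * t) = Real.exp (α / 2 * t) ^ 2 := by
    intro t
    rw [← Real.exp_nat_mul]
    congr 1
    push_cast
    ring
  rw [hr, hr, hsq]
  rw [discrim] at h3
  generalize Complex.exp ((α / 2 : ℝ) * dot z w) = c at h3 ⊢
  have h4 : (c ^ 2).re = c.re ^ 2 - c.im ^ 2 := by simp [pow_two]
  rw [h4]
  nlinarith [sq_nonneg (Real.exp (α / 2 * normSq z) - Real.exp (α / 2 * normSq w)), sq_nonneg c.im]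

theorem integral_wt_exp (α : ℝ) (hα : 0 < α) (z : Fin n → ℂ) :
    (α / 2 / Real.pi) ^ n * ∫ u : Fin n → ℂ, ‖Complex.exp (α * dot u z)‖ *
      Real.exp (-α * normSq u / 2) = Real.exp (α * normSq z / 2) := by
  have h1 := (sq_int (n := n) (β := α / 2) (by linarith) 0 0 1 (by norm_num)).2
  have h0 : normSq (0 : Fin n → ℂ) = 0 := by simp [normSq]
  have e : ∀ u : Fin n → ℂ, ‖Complex.exp ((α / 2 : ℝ) * dot u 0) +
      ((1 : ℝ) : ℂ) * Complex.exp ((α / 2 : ℝ) * dot u 0)‖ ^ 2 * Real.exp (-(α / 2) * normSq u) =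
      4 * Real.exp (-α * normSq u / 2) := by
    intro u
    have e' : -α * normSq u / 2 = -(α / 2) * normSq u := by ring
    rw [e']
    norm_num [dot]
  simp only [e, h0, dot_zero_left, mul_zero, Real.exp_zero, Complex.exp_zero, Complex.one_re] at h1
  rw [integral_const_mul] at h1
  rw [← integral_add_left_eq_self _ z]
  simp only [wt_exp]
  rw [integral_const_mul]
  linear_combination Real.exp (α * normSq z / 2) / 4 * h1

theorem antipodal (α : ℝ) (hα : 0 < α) (z : Fin n → ℂ) :
    2 * Real.exp (α * normSq z / 2) - 2 ≤ fockDist α z (-z) := by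
  have hc : 0 < (α / 2 / Real.pi) ^ n := by have := Real.pi_pos; positivity
  have h0 : normSq (0 : Fin n → ℂ) = 0 := by simp [normSq]
  have hn : normSq (-z) = normSq z := by simp [normSq]
  have i1 := integrable_wt_exp α hα z
  have i2 := integrable_wt_exp α hα (-z)
  have i3 := (integrable_wt_exp α hα (0 : Fin n → ℂ)).const_mul 2
  have h1 := integral_mono (i1.add i2) ((integrable_wt_ker α hα z (-z)).add i3) fun u => by
    have e : Complex.exp (α * dot u z) * Complex.exp (α * dot u (-z)) = 1 := by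
      rw [← Complex.exp_add]; simp [dot]
    have e0 : ‖Complex.exp (α * dot u 0)‖ = 1 := by simp [dot]
    have a1 := congrArg norm e
    rw [norm_mul, norm_one] at a1
    have a2 := norm_sub_norm_le (Complex.exp (α * dot u z)) (Complex.exp (α * dot u (-z)))
    have a3 := norm_sub_norm_le (Complex.exp (α * dot u (-z))) (Complex.exp (α * dot u z))
    rw [norm_sub_rev] at a3
    have a4 := norm_nonneg (Complex.exp (α * dot u z))
    have a5 := norm_nonneg (Complex.exp (α * dot u (-z)))
    simp only [Pi.add_apply, wt, ker, e0]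
    have a6 : ‖Complex.exp (α * dot u z)‖ + ‖Complex.exp (α * dot u (-z))‖ ≤
        ‖Complex.exp (α * dot u z) - Complex.exp (α * dot u (-z))‖ + 2 := by
      rcases le_total ‖Complex.exp (α * dot u z)‖ 1 with h | h
      · linarith
      · nlinarith
    nlinarith [Real.exp_pos (-α * normSq u / 2)]
  simp only [Pi.add_apply] at h1
  rw [integral_add i1 i2, integral_add (integrable_wt_ker α hα z (-z)) i3,
    integral_const_mul] at h1
  have h2 := mul_le_mul_of_nonneg_left h1 hc.le
  have b1 := integral_wt_exp α hα z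
  have b2 := integral_wt_exp α hα (-z)
  have b3 := integral_wt_exp α hα (0 : Fin n → ℂ)
  rw [hn] at b2
  rw [h0, mul_zero, zero_div, Real.exp_zero] at b3
  rw [fockDist_eq α hα]
  linarith

theorem sharp (hn : 1 ≤ n) (α : ℝ) (hα : 0 < α) (C : ℝ) (hC : ∀ z w : Fin n → ℂ,
    fockDist α z w ^ 2 ≤ C * (Real.exp (α * normSq z) + Real.exp (α * normSq w) -
      2 * (Complex.exp (α * dot z w)).re)) : 2 ≤ C := by
  have key : ∀ A : ℝ, 1 < A → (2 * A - 2) ^ 2 ≤ C * (2 * A ^ 2 - 2 * (A ^ 2)⁻¹) := by
    intro A hA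
    have hl := Real.log_pos hA
    let z : Fin n → ℂ := Pi.single ⟨0, hn⟩ (Real.sqrt (2 * Real.log A / α) : ℂ)
    have hz : α * normSq z = 2 * Real.log A := by
      rw [normSq, Finset.sum_eq_single ⟨0, hn⟩ (fun j _ hj => by simp [z, hj]) (by simp)]
      simp only [z, Pi.single_eq_same, Complex.norm_real, Real.norm_eq_abs, sq_abs]
      rw [Real.sq_sqrt (by positivity)]
      field_simp
    have hn' : normSq (-z) = normSq z := by simp [normSq]
    have e1 : Real.exp (α * normSq z) = A ^ 2 := by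
      rw [hz, ← Real.exp_log (by linarith : 0 < A), ← Real.exp_nat_mul, Real.exp_log (by linarith)]
      norm_num
    have e2 : Real.exp (α * normSq z / 2) = A := by
      rw [hz, mul_div_cancel_left₀ _ two_ne_zero, Real.exp_log (by linarith)]
    have e3 : (Complex.exp (α * dot z (-z))).re = (A ^ 2)⁻¹ := by
      have : dot z (-z) = -(normSq z : ℂ) := by rw [← dot_self]; simp [dot]
      rw [this, mul_neg, ← Complex.ofReal_mul, ← Complex.ofReal_neg, ← Complex.ofReal_exp,
        Complex.ofReal_re, Real.exp_neg, e1]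
    have h1 := antipodal α hα z
    have h2 := hC z (-z)
    rw [hn', e1, e3] at h2
    rw [e2] at h1
    have h3 := pow_le_pow_left₀ (by linarith) h1 2
    linarith
  have hC0 : 0 ≤ C := by
    have := key 2 (by norm_num)
    linarith
  by_contra h
  have h2 : 0 < 2 - C := by linarith
  have h3 : 1 < 4 / (2 - C) := by rw [lt_div_iff₀ h2]; linarith
  have h4 := key _ h3
  have h5 : 4 / (2 - C) * (2 - C) = 4 := by field_simp
  generalize 4 / (2 - C) = A at h3 h4 h5
  have h6 : 0 ≤ C * (A ^ 2)⁻¹ := by positivity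
  nlinarith

/-- The sharp upper bound of the induced distance by an explicit expression. -/
theorem result (n : ℕ) (hn : 1 ≤ n) (α : ℝ) (hα : 0 < α) :
    IsLeast {C : ℝ | ∀ z w : Fin n → ℂ, fockDist α z w ^ 2 ≤ C * (Real.exp (α * normSq z) +
      Real.exp (α * normSq w) - 2 * (Complex.exp (α * dot z w)).re)} 2 :=
  ⟨upper α hα, fun C hC => sharp hn α hα C hC⟩

end Pool.Agent.Results.MP_09e892_an.TwoSided
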